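import Pool.Graph.R_seed8.Y112.NF.Orth

set_option autoImplicit false

open CategoryTheory MonoidalCategory Limits

namespace Pool.Agent.KS6_77.SchurNF

open Pool.Agent.TH137.DG (tpow grpAct permAct tmap tcomap IsSchurFinite grpAct_ne_zero
  not_isSchurFinite tmap_permAct tmap_tcomap_one tmap_tcomap_zero)

universe v u

section

variable {C : Type u} [Category.{v} C] [MonoidalCategory C] [SymmetricCategory C]
  [Preadditive C] [Linear ℚ C]

/-- `a` contains infinitely many orthogonal copies of the unit as direct summands. -/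
def ManyUnits (a : C) : Prop :=
  ∃ (x : ℕ → (𝟙_ C ⟶ a)) (y : ℕ → (a ⟶ 𝟙_ C)),
    (∀ i, x i ≫ y i = 𝟙 _) ∧ ∀ i j, i ≠ j → x i ≫ y j = 0

/-- The group algebras of all symmetric groups act faithfully on the tensor powers of `a`. -/
def FaithfulActions (a : C) : Prop :=
  ∀ (n : ℕ) (c : MonoidAlgebra ℚ (Equiv.Perm (Fin n))), c ≠ 0 → grpAct a n c ≠ 0

/-- The objects obtained from `a` by the following constructions, which can be iterated: any object
`s` through which the action of a non zero element `c` of the group algebra of the symmetric group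
on a tensor power `b^{⊗ n}`, `n ≥ 1`, of an object obtained before factors (for example the image of
a Young symmetrizer, that is a Schur functor); tensor products; objects containing an object
obtained before as a direct summand. -/
inductive Built (a : C) : C → Prop
  | base : Built a a
  | part (b : C) (n : ℕ) (c : MonoidAlgebra ℚ (Equiv.Perm (Fin n))) (s : C) (f : tpow b n ⟶ s)
      (g : s ⟶ tpow b n) : Built a b → 1 ≤ n → c ≠ 0 → f ≫ g = grpAct b n c → Built a s
  | tensor (b b' : C) : Built a b → Built a b' → Built a (b ⊗ b')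
  | larger (b b' : C) (f : b ⟶ b') (g : b' ⟶ b) : Built a b → f ≫ g = 𝟙 b → Built a b'

variable [MonoidalPreadditive C]

lemma nat_aux {l m n p q : ℕ} (hp : p < n) (hq : q < n) (h : l * n + p = m * n + q) :
    l = m ∧ p = q := by
  rcases lt_trichotomy l m with h1 | h1 | h1
  · have h2 : l * n + n ≤ m * n := by
      rw [← Nat.succ_mul]
      exact Nat.mul_le_mul_right n h1
    omega
  · subst h1
    exact ⟨rfl, by omega⟩
  · have h2 : m * n + n ≤ l * n := by
      rw [← Nat.succ_mul]
      exact Nat.mul_le_mul_right n h1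
    omega

theorem ManyUnits.faithful {a : C} (h : ManyUnits a) (hne : ¬ IsZero (𝟙_ C)) :
    FaithfulActions a := by
  obtain ⟨x, y, h1, h0⟩ := h
  intro n c hc
  exact grpAct_ne_zero a n (fun i => x i) (fun i => y i) (fun i => h1 i)
    (fun i j hij => h0 i j (fun e => hij (Fin.ext e))) hne c hc

theorem ManyUnits.notSchurFinite {a : C} (h : ManyUnits a) (hne : ¬ IsZero (𝟙_ C)) :
    ¬ IsSchurFinite a := by
  obtain ⟨x, y, h1, h0⟩ := h
  refine not_isSchurFinite a (fun n => ⟨fun i => x i, fun i => y i, fun i => h1 i,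
    fun i j hij => h0 i j (fun e => hij (Fin.ext e))⟩) hne

theorem ManyUnits.part {b : C} (h : ManyUnits b) {n : ℕ}
    {c : MonoidAlgebra ℚ (Equiv.Perm (Fin n))} {s : C} {f : tpow b n ⟶ s} {g : s ⟶ tpow b n}
    (hn : 1 ≤ n) (hc : c ≠ 0) (hfg : f ≫ g = grpAct b n c) : ManyUnits s := by
  obtain ⟨x, y, h1, h0⟩ := h
  have hτ : ∃ τ, c.coeff τ ≠ 0 := by
    by_contra hcon
    push Not at hcon
    apply hc
    ext τ
    rw [hcon τ]
    rfl
  obtain ⟨τ, hτ⟩ := hτ
  have key : ∀ l m : ℕ, tmap b n (fun i => x (l * n + i)) ≫ grpAct b n c ≫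
      tcomap b n (fun i => y (m * n + (τ.symm i : ℕ))) = if l = m then c.coeff τ • 𝟙 _ else 0 := by
    intro l m
    have e : ∀ σ, tmap b n (fun i => x (l * n + i)) ≫ permAct b n σ ≫
        tcomap b n (fun i => y (m * n + (τ.symm i : ℕ))) = if σ = τ ∧ l = m then 𝟙 _ else 0 := by
      intro σ
      rw [← Category.assoc, tmap_permAct]
      by_cases hh : σ = τ ∧ l = m
      · rw [if_pos hh]
        obtain ⟨rfl, rfl⟩ := hh
        exact tmap_tcomap_one b n _ _ (fun i => h1 _)
      · rw [if_neg hh]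
        apply tmap_tcomap_zero
        by_contra hcon
        push Not at hcon
        have hall : ∀ i : Fin n, l = m ∧ ((σ.symm i : Fin n) : ℕ) = (τ.symm i : Fin n) := by
          intro i
          apply nat_aux (σ.symm i).2 (τ.symm i).2
          by_contra hi
          exact hcon i (h0 _ _ hi)
        apply hh
        refine ⟨?_, (hall ⟨0, hn⟩).1⟩
        have : σ.symm = τ.symm := by
          ext i
          exact (hall i).2
        have := congrArg Equiv.symm this
        simpa using this
    simp only [grpAct, Finsupp.sum, Preadditive.sum_comp, Preadditive.comp_sum,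
      Linear.smul_comp, Linear.comp_smul, e]
    rw [Finset.sum_eq_single τ]
    · by_cases hlm : l = m
      · rw [if_pos ⟨rfl, hlm⟩, if_pos hlm]
      · rw [if_neg (fun h => hlm h.2), if_neg hlm, smul_zero]
    · intro b _ hb
      rw [if_neg (fun h => hb h.1), smul_zero]
    · intro hτ'
      rw [Finsupp.notMem_support_iff.1 hτ']; simp
  have comp : ∀ l m : ℕ, (tmap b n (fun i => x (l * n + i)) ≫ f) ≫
      ((c.coeff τ)⁻¹ • (g ≫ tcomap b n (fun i => y (m * n + (τ.symm i : ℕ))))) =
      if l = m then 𝟙 _ else 0 := by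
    intro l m
    rw [Linear.comp_smul]
    have e1 : (tmap b n (fun i => x (l * n + i)) ≫ f) ≫ g ≫
        tcomap b n (fun i => y (m * n + (τ.symm i : ℕ))) =
        tmap b n (fun i => x (l * n + i)) ≫ grpAct b n c ≫
          tcomap b n (fun i => y (m * n + (τ.symm i : ℕ))) := by
      rw [← hfg]
      simp only [Category.assoc]
    rw [e1, key]
    by_cases hlm : l = m
    · rw [if_pos hlm, if_pos hlm, smul_smul, inv_mul_cancel₀ hτ, one_smul]
    · rw [if_neg hlm, if_neg hlm, smul_zero]
  refine ⟨fun l => tmap b n (fun i => x (l * n + i)) ≫ f,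
    fun m => (c.coeff τ)⁻¹ • (g ≫ tcomap b n (fun i => y (m * n + (τ.symm i : ℕ)))), ?_, ?_⟩
  · intro l
    rw [comp, if_pos rfl]
  · intro l m hlm
    rw [comp, if_neg hlm]

theorem ManyUnits.tensor {b b' : C} (h : ManyUnits b) (h' : ManyUnits b') :
    ManyUnits (b ⊗ b') := by
  obtain ⟨x, y, h1, h0⟩ := h
  obtain ⟨x', y', h1', h0'⟩ := h'
  refine ⟨fun l => (λ_ (𝟙_ C)).inv ≫ (x l ⊗ₘ x' l), fun m => (y m ⊗ₘ y' m) ≫ (λ_ (𝟙_ C)).hom,
    fun l => ?_, fun l m hlm => ?_⟩
  · simp only [Category.assoc]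
    rw [tensorHom_comp_tensorHom_assoc, h1, h1']
    simp
  · simp only [Category.assoc]
    rw [tensorHom_comp_tensorHom_assoc, h0 _ _ hlm, h0' _ _ hlm]
    simp

theorem ManyUnits.larger {b b' : C} (h : ManyUnits b) {f : b ⟶ b'} {g : b' ⟶ b}
    (hfg : f ≫ g = 𝟙 b) : ManyUnits b' := by
  obtain ⟨x, y, h1, h0⟩ := h
  refine ⟨fun l => x l ≫ f, fun m => g ≫ y m, fun l => ?_, fun l m hlm => ?_⟩
  · rw [Category.assoc, ← Category.assoc f, hfg, Category.id_comp, h1]
  · rw [Category.assoc, ← Category.assoc f, hfg, Category.id_comp, h0 _ _ hlm]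

theorem Built.manyUnits {a : C} (h : ManyUnits a) {b : C} (hb : Built a b) : ManyUnits b := by
  induction hb with
  | base => exact h
  | part b n c s f g _ hn hc hfg ih => exact ih.part hn hc hfg
  | tensor b b' _ _ ih ih' => exact ih.tensor ih'
  | larger b b' f g _ hfg ih => exact ih.larger hfg

end

/-- All objects built from `a` contain infinitely many orthogonal copies of the unit, have
faithful actions of the group algebras of all symmetric groups on their tensor powers, and are not
Schur-finite. -/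
def Wild {C : Type u} [Category.{v} C] [MonoidalCategory C] [SymmetricCategory C]
    [Preadditive C] [Linear ℚ C] (a : C) : Prop :=
  ∀ b : C, Built a b → ManyUnits b ∧ FaithfulActions b ∧ ¬ IsSchurFinite b

open Pool.Agent.TH137 Pool.Agent.Y112.NF in
theorem main (k : Type) [Field k] (S : ObjectProperty (NC.DGCat.{0, 0} k))
    (hM : ∀ (A B : NC.DGCat.{0, 0} k) (F : A ⟶ B), NC.IsMorita F → (S A ↔ S B))
    (hA : S (cA (XA k).toCat)) (hk : S (NC.DGCat.base k)) (h0 : S (NC.DGCat.empty k))
    {C : Type u} [Category.{v} C] [MonoidalCategory C] [SymmetricCategory C] [Preadditive C]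
    [Linear ℚ C] [MonoidalPreadditive C] (U : S.FullSubcategory ⥤ C)
    (hU : ∀ (A B : S.FullSubcategory) (F : A ⟶ B), NC.IsMorita F.hom → IsIso (U.map F))
    (hZ : IsZero (U.obj ⟨NC.DGCat.empty k, h0⟩))
    (h1 : Nonempty (U.obj ⟨NC.DGCat.base k, hk⟩ ≅ 𝟙_ C)) (hne : ¬ IsZero (𝟙_ C)) :
    Wild (U.obj ⟨cA (XA k).toCat, hA⟩) := by
  have hP : S (cA (PP k)) := (hM _ _ (cF (toP k) : cA (XA k).toCat ⟶ cA (PP k))
    (cF_isMorita (toP_morita k))).1 hA
  have hI := hU ⟨cA (XA k).toCat, hA⟩ ⟨cA (PP k), hP⟩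
    (ObjectProperty.homMk (cF (toP k) : cA (XA k).toCat ⟶ cA (PP k)))
    (cF_isMorita (toP_morita k))
  obtain ⟨i, p, hip, hz⟩ := nkey S hM hk h0 U hU hZ (PP k) hP (fun n => (some n : Option ℕ))
    (DD k) (FF k) (hd k) (ho k)
  obtain ⟨e⟩ := h1
  let f := @asIso _ _ _ _ _ hI
  have hmany : ManyUnits (U.obj ⟨cA (XA k).toCat, hA⟩) := by
    refine ⟨fun j => e.inv ≫ i j ≫ f.inv, fun j => f.hom ≫ p j ≫ e.hom, ?_, ?_⟩
    · intro j
      simp only [Category.assoc, Iso.inv_hom_id_assoc]
      rw [← Category.assoc (i j), hip, Category.id_comp, e.inv_hom_id]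
    · intro a b hab
      simp only [Category.assoc, Iso.inv_hom_id_assoc]
      rw [← Category.assoc (i a), hz _ _ (fun h => hab h.symm), zero_comp, comp_zero]
  intro b hb
  have h3 := hb.manyUnits hmany
  exact ⟨h3, h3.faithful hne, h3.notSchurFinite hne⟩

end Pool.Agent.KS6_77.SchurNF
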